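import Pool.Agent.H254.BR.Main5

/-!
There is a unital separable simple stably finite C*-algebra of stable rank one with a unique
tracial state and with positive radius of comparison.
-/

namespace Pool.Agent.Results.MP_c20ff4_an.BauerPositiveRC

open Pool.Agent.H254.BR

/-- **A simple C*-algebra of stable rank one whose trace simplex is Bauer (one point) and whose
radius of comparison is positive.** -/
theorem result : ∃ (A : Type) (_ : CStarAlgebra A), TopologicalSpace.SeparableSpace A ∧
    IsSimpleRing A ∧ StablyFinite A ∧ StableRankOne A ∧ BauerTraceSpace A ∧
    (∃ τ, TracialStates A = {τ}) ∧ Nonempty (QT A) ∧ 0 < rc A :=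
  main

end Pool.Agent.Results.MP_c20ff4_an.BauerPositiveRC
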